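import Pool.Agent.Helper77.DS.Kos

/-! DS-12a, DS-12b: Delta-ideals on the families `Fin (n + 1)`, `Fin m` -/

namespace Pool.Agent.Helper77.DS

open MvPolynomial

noncomputable section

/-- `lmap` for maps of the bases is a renaming. -/
theorem lmap_rename {ι : Type} [Finite ι] {V V' : ι → Type} [∀ i, Finite (V' i)]
    (A : ∀ i, V' i → V i → ℂ) (g : ∀ i, V i → V' i) (h1 : ∀ i c, A i (g i c) c = 1)
    (h0 : ∀ i c c', c' ≠ g i c → A i c' c = 0) (f : MvPolynomial (∀ i, V i) ℂ) :
    DI.lmap A f = rename (fun (α : ∀ i, V i) i => g i (α i)) f := by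
  have := Fintype.ofFinite ι
  have h : (DI.lmap A : MvPolynomial (∀ i, V i) ℂ →ₐ[ℂ] MvPolynomial (∀ i, V' i) ℂ) =
      rename (fun (α : ∀ i, V i) i => g i (α i)) := by
    ext1 α
    rw [DI.lmap, aeval_X, rename_X, finsum_eq_single _ (fun i => g i (α i))]
    · rw [finprod_eq_prod_of_fintype, Finset.prod_eq_one (fun i _ => h1 i _), map_one, one_mul]
    · intro β hβ
      obtain ⟨i, hi⟩ := Function.ne_iff.1 hβ
      rw [finprod_eq_prod_of_fintype, Finset.prod_eq_zero (Finset.mem_univ i) (h0 i _ _ hi),
        map_zero, zero_mul]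
  rw [h]

/-- DS-12a -/
theorem merge_fin (I : DI.DeltaIdeal) (n n' m : ℕ) (s : Fin (n' + 1) → Fin (n + 1))
    (hs : Function.Surjective s) (f : MvPolynomial (Fin (n + 1) → Fin m) ℂ)
    (hf : f ∈ I.ideal (Fin (n + 1)) (fun _ => Fin m)) :
    rename (fun α j => α (s j)) f ∈ I.ideal (Fin (n' + 1)) (fun _ => Fin m) := by
  classical
  have h1 := I.linear (Fin (n + 1)) (fun _ => Fin m)
    (fun j => ∀ _ : {i : Fin (n' + 1) // s i = j}, Fin m)
    (fun j c' c => if c' = (fun _ => c) then (1 : ℂ) else 0) f hf
  rw [lmap_rename _ (fun j c => (fun _ => c : ∀ _ : {i : Fin (n' + 1) // s i = j}, Fin m))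
    (fun j c => if_pos rfl) (fun j c c' h => if_neg h) f] at h1
  have h2 := I.merge (Fin (n' + 1)) (Fin (n + 1)) s hs (fun _ => Fin m) _ h1
  rw [rename_rename] at h2
  exact h2

/-- A left inverse of `rename ε`: variables outside the image are mapped to zero. -/
def back {Ω Ω' : Type} (ε : Ω → Ω') : MvPolynomial Ω' ℂ →ₐ[ℂ] MvPolynomial Ω ℂ :=
  open Classical in
  aeval fun y => if h : ∃ x, ε x = y then X h.choose else 0

/-- DS-12b -/
theorem transport (ι : Type) [Finite ι] [Nonempty ι] (V : ι → Type) [∀ i, Finite (V i)] :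
    ∃ (n m : ℕ) (ε : (∀ i, V i) → (Fin (n + 1) → Fin m)), Function.Injective ε ∧
      ∀ I : DI.DeltaIdeal,
        (∀ f ∈ I.ideal ι V, rename ε f ∈ I.ideal (Fin (n + 1)) (fun _ => Fin m)) ∧
        ∀ f ∈ I.ideal (Fin (n + 1)) (fun _ => Fin m), back ε f ∈ I.ideal ι V := by
  classical
  have := Fintype.ofFinite ι
  have hV : ∀ i, Fintype (V i) := fun i => Fintype.ofFinite (V i)
  obtain ⟨n, hn⟩ : ∃ n, Fintype.card ι = n + 1 :=
    Nat.exists_eq_succ_of_ne_zero (Fintype.card_ne_zero)
  have e : Fin (n + 1) ≃ ι := (Fintype.equivFinOfCardEq hn).symm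
  obtain ⟨m, hm⟩ : ∃ m, ∀ i, Fintype.card (V i) ≤ m :=
    ⟨∑ i, Fintype.card (V i), fun i => Finset.single_le_sum
      (f := fun i => Fintype.card (V i)) (fun _ _ => Nat.zero_le _) (Finset.mem_univ i)⟩
  have hemb : ∀ i, ∃ g : V i → Fin m, Function.Injective g := by
    intro i
    obtain ⟨g⟩ := Function.Embedding.nonempty_of_card_le (α := V i) (β := Fin m)
      (by rw [Fintype.card_fin]; exact hm i)
    exact ⟨g, g.injective⟩
  choose emb hinj using hemb
  let ε : (∀ i, V i) → (Fin (n + 1) → Fin m) := fun x j => emb (e j) (x (e j))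
  have hε : Function.Injective ε := by
    intro x y hxy
    funext i
    have h := congrFun hxy (e.symm i)
    simp only [ε] at h
    have h2 := hinj _ h
    rw [Equiv.apply_symm_apply] at h2
    exact h2
  refine ⟨n, m, ε, hε, fun I => ⟨fun f hf => ?_, fun f hf => ?_⟩⟩
  · have h1 := I.linear ι V (fun j => ∀ _ : {i : Fin (n + 1) // e i = j}, Fin m)
      (fun j c' c => if c' = (fun _ => emb j c) then (1 : ℂ) else 0) f hf
    rw [lmap_rename _ (fun j c => (fun _ => emb j c : ∀ _ : {i : Fin (n + 1) // e i = j}, Fin m))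
      (fun j c => if_pos rfl) (fun j c c' h => if_neg h) f] at h1
    have h2 := I.merge (Fin (n + 1)) ι e e.surjective (fun _ => Fin m) _ h1
    rw [rename_rename] at h2
    exact h2
  · let A : ∀ j : Fin (n + 1), (∀ i : {i : ι // e.symm i = j}, V i) → Fin m → ℂ :=
      fun j c' c => if ∀ i : {i : ι // e.symm i = j}, emb i (c' i) = c then (1 : ℂ) else 0
    have h1 := I.linear (Fin (n + 1)) (fun _ => Fin m)
      (fun j => ∀ i : {i : ι // e.symm i = j}, V i) A f hf
    have h2 := I.merge ι (Fin (n + 1)) e.symm e.symm.surjective V _ h1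
    have h3 : back ε = (rename (fun (β : ∀ j : Fin (n + 1), ∀ i : {i : ι // e.symm i = j}, V i)
        (i : ι) => β (e.symm i) ⟨i, rfl⟩)).comp (DI.lmap A) := by
      ext1 y
      rw [AlgHom.comp_apply, back, aeval_X, DI.lmap, aeval_X]
      -- the product vanishes unless `β` comes from a preimage of `y`
      have key : ∀ β : (∀ j : Fin (n + 1), ∀ i : {i : ι // e.symm i = j}, V i),
          (∏ᶠ j, A j (β j) (y j)) ≠ 0 → ∀ (j : Fin (n + 1)) (i : {i : ι // e.symm i = j}),
            emb i (β j i) = y j := by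
        intro β hβ j
        rw [finprod_eq_prod_of_fintype] at hβ
        have h := Finset.prod_ne_zero_iff.1 hβ j (Finset.mem_univ j)
        by_contra hcon
        exact h (if_neg hcon)
      split_ifs with h
      · have hx := h.choose_spec
        set x := h.choose with hxdef
        rw [finsum_eq_single _ (fun (j : Fin (n + 1)) (i : {i : ι // e.symm i = j}) => x i)]
        · rw [finprod_eq_prod_of_fintype, Finset.prod_eq_one, map_one, one_mul, rename_X]
          intro j _
          refine if_pos ?_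
          rintro ⟨i, rfl⟩
          rw [← hx]
          simp only [ε]
          rw [Equiv.apply_symm_apply]
        · intro β hβ
          by_cases hp : (∏ᶠ j, A j (β j) (y j)) = 0
          · rw [hp, map_zero, zero_mul]
          · exfalso
            refine hβ ?_
            funext j i
            have h4 := key β hp j i
            obtain ⟨i, rfl⟩ := i
            rw [← hx] at h4
            simp only [ε] at h4
            rw [Equiv.apply_symm_apply] at h4
            exact hinj _ h4
      · rw [finsum_eq_zero_of_forall_eq_zero, map_zero]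
        intro β
        by_cases hp : (∏ᶠ j, A j (β j) (y j)) = 0
        · rw [hp, map_zero, zero_mul]
        · exfalso
          refine h ⟨fun i => β (e.symm i) ⟨i, rfl⟩, ?_⟩
          funext j
          have h4 := key β hp (e.symm (e j)) ⟨e j, rfl⟩
          simp only [ε]
          rw [h4, Equiv.symm_apply_apply]
    rw [h3]
    exact h2

end

end Pool.Agent.Helper77.DS
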